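import Pool.Agent.TH893.BR.FamB

/-! # Uniformity in the exponent for the bases `B (l q) ^ r`, `q` prime -/

set_option autoImplicit false
set_option linter.unusedSectionVars false

namespace Pool.Agent.TH957.FamPrimesB

open NumberField Filter Topology Finset
open Pool.Agent.W401.Cheb
open Pool.Agent.W171.LG (Wr)
open Pool.Agent.H386R2.Artin (PP artinC)
open Pool.Agent.H771R4.SE (Dat)
open Pool.Agent.W171.EP (sG badC badG unif_int unif_primes)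
open Pool.Agent.TH893.BR

variable (s : Bs)

open Classical in
theorem fam_primes_B (bo : Bool) (C : ℝ) (hC : 1 < C) (α θ' : ℝ)
    (hall : ∀ (D : Dat) (ε : ℝ), 0 < ε → ∃ N₀ : ℕ, ∀ y : ℕ,
      N₀ ≤ y → ∀ l : ℕ, 0 < l → Real.log l ≤ √y →
        (#(badG D ε (C * Real.log y) ((y : ℝ) ^ α) l y) : ℝ) ≤ 2 * (y : ℝ) ^ θ')
    (ε : ℝ) (hε : 0 < ε) :
    ∃ δ : ℝ, 0 < δ ∧ ∀ L : ℕ, ∃ N₀ : ℕ, ∀ y : ℕ, N₀ ≤ y → ∀ i : Idx bo, Wr δ L y i.1 →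
      ∀ l : ℕ, 0 < l → Real.log l ≤ √y →
        (#(badG (datB s i.1) ε (C * Real.log y) ((y : ℝ) ^ α) l y) : ℝ) ≤ 2 * (y : ℝ) ^ θ' := by
  obtain ⟨C1, hC1, hmU⟩ := mean_B s
  obtain ⟨i0, -⟩ := idx_ne bo
  by_contra hcon
  push Not at hcon
  have hk : ∀ k : ℕ, ∃ L : ℕ, ∀ N₀ : ℕ, ∃ y : ℕ, N₀ ≤ y ∧ ∃ i : Idx bo,
      Wr (1 / (2 * C1 * (k + 1))) L y i.1 ∧ ∃ l : ℕ, 0 < l ∧ Real.log l ≤ √y ∧
        2 * (y : ℝ) ^ θ' < (#(badG (datB s i.1) ε (C * Real.log y) ((y : ℝ) ^ α) l y) : ℝ) :=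
    fun k => hcon _ (by positivity)
  choose L hL using hk
  obtain ⟨k, N₀, h⟩ := unif_primes (fun i : Idx bo => datB s i.1) (s.Ac bo) (hQ_B s).choose
    (datB_Ac s bo) (fun i => (datB_p0 s i.1).le) i0
    (fun k N i => Wr (1 / (2 * C1 * (k + 1))) (L k) N i.1) (hmean_B s bo C1 hC1 (by
      intro δ L' ε' hε'
      obtain ⟨x0, h⟩ := hmU δ L' ε' hε'
      refine ⟨x0, fun N x R a1 a2 a3 => h N x R a1 a2 ?_⟩
      refine le_trans (le_of_eq ?_) a3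
      congr!) L) C hC α θ' hall ε hε
  obtain ⟨y, hy, i, hW, l, hl, hll, hb⟩ := hL k N₀
  exact absurd (h y hy i hW l hl hll) (not_le.2 hb)

end Pool.Agent.TH957.FamPrimesB
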